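import Pool.Agent.H61.HB.Stmts

/-! # Board hbg (MP_91403e_an), row DIS: `u ∈ L²(0,T; H^(s+2))` -/

set_option autoImplicit false

open MeasureTheory Set

namespace HB

theorem sq_nonneg' (k : Z2) : 0 ≤ sq k := by unfold sq; positivity

theorem one_le_sq {k : Z2} (hk : k ≠ 0) : 1 ≤ sq k := by
  unfold sq
  by_cases h1 : k.1 = 0
  · have h2 : k.2 ≠ 0 := fun h => hk (Prod.ext h1 h)
    have h3 : (1 : ℤ) ≤ k.2 ^ 2 := by
      have : 0 < k.2 ^ 2 := by positivity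
      omega
    have h4 : (1 : ℝ) ≤ (k.2 : ℝ) ^ 2 := by exact_mod_cast h3
    nlinarith [sq_nonneg (k.1 : ℝ)]
  · have h3 : (1 : ℤ) ≤ k.1 ^ 2 := by
      have : 0 < k.1 ^ 2 := by positivity
      omega
    have h4 : (1 : ℝ) ≤ (k.1 : ℝ) ^ 2 := by exact_mod_cast h3
    nlinarith [sq_nonneg (k.2 : ℝ)]

/-- the scalar energy inequality -/
theorem scal (lam T : ℝ) (hlam : 0 < lam) (hT : 0 ≤ T) (c g : ℝ → ℂ)
    (hc : ContinuousOn c (Icc 0 T)) (hg : ContinuousOn g (Icc 0 T))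
    (hd : ∀ t ∈ Icc (0 : ℝ) T, HasDerivWithinAt c (-((lam : ℝ) : ℂ) * c t - g t) (Icc 0 T) t) :
    lam * ∫ t in (0 : ℝ)..T, ‖c t‖ ^ 2 ≤ ‖c 0‖ ^ 2 + (1 / lam) * ∫ t in (0 : ℝ)..T, ‖g t‖ ^ 2 := by
  have hc2 : ContinuousOn (fun t => ‖c t‖ ^ 2) (Icc 0 T) := hc.norm.pow 2
  have hg2 : ContinuousOn (fun t => ‖g t‖ ^ 2) (Icc 0 T) := hg.norm.pow 2
  have hci : IntervalIntegrable (fun t => ‖c t‖ ^ 2) volume 0 T :=
    hc2.intervalIntegrable_of_Icc hT
  have hgi : IntervalIntegrable (fun t => ‖g t‖ ^ 2) volume 0 T :=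
    hg2.intervalIntegrable_of_Icc hT
  have hφ : ContinuousOn (fun t => -lam * ‖c t‖ ^ 2 + (1 / lam) * ‖g t‖ ^ 2) (Icc 0 T) :=
    (hc2.const_mul _).add (hg2.const_mul _)
  have key := intervalIntegral.sub_le_integral_of_hasDeriv_right_of_le (a := 0) (b := T)
    (g := fun t => ‖c t‖ ^ 2)
    (g' := fun t => 2 * inner ℝ (c t) (-((lam : ℝ) : ℂ) * c t - g t))
    (φ := fun t => -lam * ‖c t‖ ^ 2 + (1 / lam) * ‖g t‖ ^ 2) hT hc2 (fun x hx => by
      have h1 := (hd x (Ioo_subset_Icc_self hx)).hasDerivAt (Icc_mem_nhds hx.1 hx.2)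
      exact h1.norm_sq.hasDerivWithinAt) (hφ.integrableOn_Icc) (fun x hx => by
      have h1 : inner ℝ (c x) (-((lam : ℝ) : ℂ) * c x - g x) =
          -lam * ‖c x‖ ^ 2 - inner ℝ (c x) (g x) := by
        rw [inner_sub_right]
        congr 1
        have : -((lam : ℝ) : ℂ) * c x = (-lam : ℝ) • c x := by
          rw [Complex.real_smul]
          push_cast
          ring
        rw [this, inner_smul_right, real_inner_self_eq_norm_sq]
      have h2 : |inner ℝ (c x) (g x)| ≤ ‖c x‖ * ‖g x‖ := abs_real_inner_le_norm _ _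
      have h3 := (abs_le.1 h2).1
      have h4 : 2 * (‖c x‖ * ‖g x‖) ≤ lam * ‖c x‖ ^ 2 + (1 / lam) * ‖g x‖ ^ 2 := by
        have h5 : 0 ≤ (1 / lam) * (lam * ‖c x‖ - ‖g x‖) ^ 2 := by positivity
        have h6 : (1 / lam) * (lam * ‖c x‖ - ‖g x‖) ^ 2 =
            lam * ‖c x‖ ^ 2 + (1 / lam) * ‖g x‖ ^ 2 - 2 * (‖c x‖ * ‖g x‖) := by
          field_simp
          ring
        linarith
      show 2 * inner ℝ (c x) (-((lam : ℝ) : ℂ) * c x - g x) ≤ _
      rw [h1]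
      linarith)
  rw [intervalIntegral.integral_add (hci.const_mul _) (hgi.const_mul _),
    intervalIntegral.integral_const_mul, intervalIntegral.integral_const_mul] at key
  have : 0 ≤ ‖c T‖ ^ 2 := by positivity
  linarith

theorem lint_eq (T : ℝ) (hT : 0 ≤ T) (f : ℝ → ℝ) (hf : ContinuousOn f (Icc 0 T))
    (h0 : ∀ t, 0 ≤ f t) :
    ∫⁻ t in Icc 0 T, ENNReal.ofReal (f t) = ENNReal.ofReal (∫ t in (0 : ℝ)..T, f t) := by
  rw [intervalIntegral.integral_of_le hT, ← integral_Icc_eq_integral_Ioc,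
    ofReal_integral_eq_lintegral_ofReal hf.integrableOn_Icc (Filter.Eventually.of_forall h0)]

theorem lint_eq' (T w : ℝ) (hT : 0 ≤ T) (hw : 0 ≤ w) (f : ℝ → ℂ) (hf : ContinuousOn f (Icc 0 T)) :
    ∫⁻ t in Icc 0 T, ENNReal.ofReal (w * ‖f t‖ ^ 2) =
      ENNReal.ofReal (w * ∫ t in (0 : ℝ)..T, ‖f t‖ ^ 2) := by
  have h1 : ContinuousOn (fun t => w * ‖f t‖ ^ 2) (Icc 0 T) := (hf.norm.pow 2).const_mul _
  rw [lint_eq T hT _ h1 (fun t => by positivity), intervalIntegral.integral_const_mul]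

theorem dis_thm (hADC : ADCStmt) (hCON : CONStmt) : DISStmt := by
  intro ν s T u hν hs hT hu j
  have hA : Cts (s - 2) T (fun t => adv (u t) (u t)) := hADC s T u hs hu.cts
  obtain ⟨hc, -⟩ := hCON s T u hu.cts
  obtain ⟨hg, hgn⟩ := hCON (s - 2) T _ hA
  have hmeas : ∀ (r : ℝ) (G : ℝ → V), (∀ j k, ContinuousOn (fun t => G t j k) (Icc 0 T)) →
      ∀ k : Z2, AEMeasurable (fun t => ENNReal.ofReal ((1 + sq k) ^ r * ‖G t j k‖ ^ 2))
        (volume.restrict (Icc 0 T)) := by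
    intro r G hG k
    apply AEMeasurable.ennreal_ofReal
    exact (((hG j k).norm.pow 2).const_mul _).aemeasurable measurableSet_Icc
  rw [lintegral_tsum (hmeas (s + 2) u hc)]
  -- the nonlinear term
  have hnon : ∑' k : Z2, ∫⁻ t in Icc 0 T,
      ENNReal.ofReal ((1 + sq k) ^ (s - 2) * ‖adv (u t) (u t) j k‖ ^ 2) ≠ ⊤ := by
    rw [← lintegral_tsum (hmeas (s - 2) (fun t => adv (u t) (u t)) hg)]
    have hle : ∫⁻ t in Icc 0 T, ∑' k : Z2,
        ENNReal.ofReal ((1 + sq k) ^ (s - 2) * ‖adv (u t) (u t) j k‖ ^ 2) ≤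
        ∫⁻ t in Icc 0 T, ENNReal.ofReal (nsq (s - 2) (adv (u t) (u t))) := by
      apply setLIntegral_mono' measurableSet_Icc
      intro t ht
      rw [← ENNReal.ofReal_tsum_of_nonneg (fun k => by
        have := sq_nonneg' k
        positivity) (hA.1 t ht j)]
      apply ENNReal.ofReal_le_ofReal
      unfold nsq
      exact Finset.single_le_sum (f := fun j => nqS (s - 2) (adv (u t) (u t) j))
        (fun i _ => tsum_nonneg fun k => by
          have := sq_nonneg' k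
          positivity) (Finset.mem_univ j)
    refine ne_top_of_le_ne_top ?_ hle
    have hfin : ∫⁻ t in Icc 0 T, ENNReal.ofReal (nsq (s - 2) (adv (u t) (u t))) < ⊤ := by
      have h1 : IntegrableOn (fun t => nsq (s - 2) (adv (u t) (u t))) (Icc 0 T) :=
        hgn.integrableOn_Icc
      have h2 := h1.hasFiniteIntegral
      refine lt_of_le_of_lt (lintegral_mono fun t => ?_) h2
      rw [← ofReal_norm]
      exact ENNReal.ofReal_le_ofReal (le_abs_self _)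
    exact hfin.ne
  have hini : ∑' k : Z2, ENNReal.ofReal ((1 + sq k) ^ s * ‖u 0 j k‖ ^ 2) ≠ ⊤ := by
    have h1 := hu.cts.1 0 ⟨le_rfl, hT⟩ j
    rw [← ENNReal.ofReal_tsum_of_nonneg (fun k => by
      have := sq_nonneg' k
      positivity) h1]
    exact ENNReal.ofReal_ne_top
  let X : ENNReal := ∫⁻ t in Icc 0 T, ENNReal.ofReal ((1 + sq (0 : Z2)) ^ (s + 2) * ‖u t j 0‖ ^ 2)
  have hX : X ≠ ⊤ := by
    show ∫⁻ t in Icc 0 T, ENNReal.ofReal ((1 + sq (0 : Z2)) ^ (s + 2) * ‖u t j 0‖ ^ 2) ≠ ⊤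
    have h0 := sq_nonneg' 0
    rw [lint_eq' T _ hT (by positivity) _ (hc j 0)]
    exact ENNReal.ofReal_ne_top
  have hk : ∀ k : Z2, ∫⁻ t in Icc 0 T, ENNReal.ofReal ((1 + sq k) ^ (s + 2) * ‖u t j k‖ ^ 2) ≤
      (if k = 0 then X else 0) +
        (ENNReal.ofReal (4 / ν) * ENNReal.ofReal ((1 + sq k) ^ s * ‖u 0 j k‖ ^ 2) +
        ENNReal.ofReal (16 / ν ^ 2) * ∫⁻ t in Icc 0 T,
          ENNReal.ofReal ((1 + sq k) ^ (s - 2) * ‖adv (u t) (u t) j k‖ ^ 2)) := by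
    intro k
    by_cases hk0 : k = 0
    · subst hk0
      rw [if_pos rfl]
      exact le_self_add
    · rw [if_neg hk0, zero_add]
      have hq : 1 ≤ sq k := one_le_sq hk0
      have hlam : 0 < ν * sq k ^ 2 := by positivity
      have h1 := scal (ν * sq k ^ 2) T hlam hT (fun t => u t j k)
        (fun t => adv (u t) (u t) j k) (hc j k) (hg j k) (fun t ht => hu.eqn j k t ht)
      rw [lint_eq' T _ hT (by positivity) _ (hc j k), lint_eq' T _ hT (by positivity) _ (hg j k),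
        ← ENNReal.ofReal_mul (by positivity), ← ENNReal.ofReal_mul (by positivity),
        ← ENNReal.ofReal_add (by positivity) (by
          apply mul_nonneg (by positivity)
          apply mul_nonneg (by positivity)
          apply intervalIntegral.integral_nonneg hT
          intro t _
          positivity)]
      apply ENNReal.ofReal_le_ofReal
      set C := ∫ t in (0 : ℝ)..T, ‖u t j k‖ ^ 2 with hC
      set D := ∫ t in (0 : ℝ)..T, ‖adv (u t) (u t) j k‖ ^ 2 with hD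
      have hD0 : 0 ≤ D := intervalIntegral.integral_nonneg hT fun t _ => by positivity
      have hU0 : 0 ≤ ‖u 0 j k‖ ^ 2 := by positivity
      have hb : (0 : ℝ) < 1 + sq k := by linarith
      have e1 : (1 + sq k) ^ (s + 2) = (1 + sq k) ^ (s - 2) * (1 + sq k) ^ 4 := by
        rw [← Real.rpow_natCast, ← Real.rpow_add hb]
        congr 1
        push_cast
        ring
      have e2 : (1 + sq k) ^ s = (1 + sq k) ^ (s - 2) * (1 + sq k) ^ 2 := by
        rw [← Real.rpow_natCast, ← Real.rpow_add hb]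
        congr 1
        push_cast
        ring
      have hw : 0 < (1 + sq k) ^ (s - 2) := Real.rpow_pos_of_pos hb _
      have h2 : C ≤ (1 / (ν * sq k ^ 2)) * ‖u 0 j k‖ ^ 2 + (1 / (ν * sq k ^ 2)) ^ 2 * D := by
        have h3 : (1 / (ν * sq k ^ 2)) * (ν * sq k ^ 2 * C) ≤
            (1 / (ν * sq k ^ 2)) * (‖u 0 j k‖ ^ 2 + 1 / (ν * sq k ^ 2) * D) :=
          mul_le_mul_of_nonneg_left h1 (by positivity)
        have h4 : (1 / (ν * sq k ^ 2)) * (ν * sq k ^ 2 * C) = C := by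
          field_simp
        rw [h4] at h3
        refine h3.trans (le_of_eq ?_)
        ring
      have h5 : (1 + sq k) ^ 2 * (1 / (ν * sq k ^ 2)) ≤ 4 / ν := by
        have h6 : (1 + sq k) ^ 2 ≤ 4 * sq k ^ 2 := by nlinarith
        rw [mul_one_div, div_le_div_iff₀ hlam hν]
        calc (1 + sq k) ^ 2 * ν ≤ 4 * sq k ^ 2 * ν := by gcongr
          _ = 4 * (ν * sq k ^ 2) := by ring
      have h7 : (0 : ℝ) ≤ (1 + sq k) ^ 2 * (1 / (ν * sq k ^ 2)) := by positivity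
      have h8 : ((1 + sq k) ^ 2 * (1 / (ν * sq k ^ 2))) ^ 2 ≤ 16 / ν ^ 2 := by
        calc ((1 + sq k) ^ 2 * (1 / (ν * sq k ^ 2))) ^ 2 ≤ (4 / ν) ^ 2 :=
              pow_le_pow_left₀ h7 h5 2
          _ = 16 / ν ^ 2 := by ring
      have h9 : (1 + sq k) ^ 4 * C ≤ (4 / ν) * ((1 + sq k) ^ 2 * ‖u 0 j k‖ ^ 2) +
          (16 / ν ^ 2) * D := by
        calc (1 + sq k) ^ 4 * C ≤ (1 + sq k) ^ 4 * ((1 / (ν * sq k ^ 2)) * ‖u 0 j k‖ ^ 2 +
              (1 / (ν * sq k ^ 2)) ^ 2 * D) := by gcongr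
          _ = ((1 + sq k) ^ 2 * (1 / (ν * sq k ^ 2))) * ((1 + sq k) ^ 2 * ‖u 0 j k‖ ^ 2) +
              ((1 + sq k) ^ 2 * (1 / (ν * sq k ^ 2))) ^ 2 * D := by ring
          _ ≤ _ := by gcongr
      rw [e1, e2]
      calc (1 + sq k) ^ (s - 2) * (1 + sq k) ^ 4 * C = (1 + sq k) ^ (s - 2) * ((1 + sq k) ^ 4 * C) := by
            ring
        _ ≤ (1 + sq k) ^ (s - 2) * ((4 / ν) * ((1 + sq k) ^ 2 * ‖u 0 j k‖ ^ 2) +
              (16 / ν ^ 2) * D) := by gcongr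
        _ = _ := by ring
  refine ne_top_of_le_ne_top ?_ (ENNReal.tsum_le_tsum hk)
  rw [ENNReal.tsum_add, ENNReal.tsum_add, ENNReal.tsum_mul_left, ENNReal.tsum_mul_left, tsum_ite_eq]
  exact ENNReal.add_ne_top.2 ⟨hX, ENNReal.add_ne_top.2
    ⟨ENNReal.mul_ne_top ENNReal.ofReal_ne_top hini, ENNReal.mul_ne_top ENNReal.ofReal_ne_top hnon⟩⟩

end HB
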