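import Pool.Agent.H61.HB.Stmts5

/-!
Row HW3 of board fn3 (MP_91403e_an): the nonlinear term in the norm of `H^(-3/2)`
(after HMW of helper74).
-/

set_option autoImplicit false

namespace HB

open Set Filter

theorem hw3_sq {k : Z2} (hk : k ≠ 0) : 1 ≤ sq k := by
  unfold sq
  have h : k.1 ≠ 0 ∨ k.2 ≠ 0 := by
    by_contra h
    push Not at h
    exact hk (Prod.ext h.1 h.2)
  rcases h with h | h
  · have h1 : (1 : ℤ) ≤ k.1 ^ 2 := by
      have := sq_nonneg k.1
      have h2 : k.1 ^ 2 ≠ 0 := pow_ne_zero 2 h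
      omega
    have h2 : (1 : ℝ) ≤ (k.1 : ℝ) ^ 2 := by exact_mod_cast h1
    nlinarith [sq_nonneg (k.2 : ℝ)]
  · have h1 : (1 : ℤ) ≤ k.2 ^ 2 := by
      have := sq_nonneg k.2
      have h2 : k.2 ^ 2 ≠ 0 := pow_ne_zero 2 h
      omega
    have h2 : (1 : ℝ) ≤ (k.2 : ℝ) ^ 2 := by exact_mod_cast h1
    nlinarith [sq_nonneg (k.1 : ℝ)]

/-- one summand of the pairing -/
noncomputable def hw3T (z : V) (f h : Z2 → ℂ) (k : Z2) : ℝ :=
  ((starRingEnd ℂ) (off f k) * dot z h k).re / (sq k * √(sq k))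

theorem hw3_summable (hB : BILStmt) (hG : GRFStmt) (z : V) (f h : Z2 → ℂ) (hz : Mem 2 z)
    (hf : MemS 2 f) (hh : MemS 2 h) : Summable (hw3T z f h) := by
  obtain ⟨C, _, hC⟩ := hB 2 le_rfl
  have h1 : Summable fun k => ‖dot z h k‖ ^ 2 := by
    have := (hC z h hz hh).2.1
    unfold MemS at this
    simpa using this
  have h2 : Summable fun k => ‖off f k‖ ^ 2 := (hG.1 f hf).2.2.2.2.1
  refine Summable.of_norm_bounded (h2.add h1) fun k => ?_
  by_cases hk : k = 0
  · subst hk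
    simp only [hw3T, off, if_true, map_zero, zero_mul, Complex.zero_re, zero_div, norm_zero]
    positivity
  · have hs := hw3_sq hk
    have hs2 : 1 ≤ sq k * √(sq k) := by
      have h3 : 1 ≤ √(sq k) := Real.one_le_sqrt.2 hs
      nlinarith
    have e1 : ‖hw3T z f h k‖ ≤ ‖off f k‖ * ‖dot z h k‖ := by
      unfold hw3T
      rw [norm_div, Real.norm_eq_abs, Real.norm_eq_abs,
        abs_of_pos (by linarith : 0 < sq k * √(sq k))]
      have e2 : |((starRingEnd ℂ) (off f k) * dot z h k).re| ≤ ‖off f k‖ * ‖dot z h k‖ := by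
        refine (Complex.abs_re_le_norm _).trans ?_
        rw [norm_mul, RCLike.norm_conj]
      refine (div_le_self (abs_nonneg _) hs2).trans e2
    nlinarith [sq_nonneg (‖off f k‖ - ‖dot z h k‖), norm_nonneg (off f k),
      norm_nonneg (dot z h k)]

theorem hw3_thm (hTB : TB3Stmt) (hTC : TC3Stmt) (hL : LINStmt) (hG3 : GR3Stmt) (hG : GRFStmt)
    (hM : MMBStmt) (hB : BILStmt) : HW3Stmt := by
  have hc : 0 ≤ √cZ := Real.sqrt_nonneg _
  refine ⟨8 * √cZ + 2, by positivity, ?_⟩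
  intro u v hu hv hRu hRv
  set w : V := v - u with hw
  have hwm : Mem 2 w := (hM.2.2.2.2.2 2 v u hv hu).1
  have hRw : Rl w := by
    intro j k
    show v j (-k) - u j (-k) = (starRingEnd ℂ) (v j k - u j k)
    rw [hRv, hRu, map_sub]
  obtain ⟨hN0, hNF, hFP, -, -⟩ := hG3.2.1 w hwm
  obtain ⟨hU0, hUF, hUP, -, -⟩ := hG3.2.1 u hu
  have hP0 : 0 ≤ hp w := (hN0.trans hNF).trans hFP
  have hg0 : 0 ≤ hp u := (hU0.trans hUF).trans hUP
  have hPP : √(hp w) * √(hp w) = hp w := Real.mul_self_sqrt hP0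
  -- components
  have nn : ∀ (z : V), Mem 2 z → ∀ j, 0 ≤ hpS (z j) ∧ 0 ≤ hnS (z j) := by
    intro z hz j
    obtain ⟨-, -, a, b, c, -⟩ := hG3.1 (z j) (hz j)
    exact ⟨(a.trans b).trans c, a⟩
  have chp : ∀ (z : V), Mem 2 z → ∀ j, hpS (z j) ≤ hp z := fun z hz j =>
    Finset.single_le_sum (f := fun j => hpS (z j)) (fun i _ => (nn z hz i).1)
      (Finset.mem_univ j)
  have chn : ∀ (z : V), Mem 2 z → ∀ j, hnS (z j) ≤ hn z := fun z hz j =>
    Finset.single_le_sum (f := fun j => hnS (z j)) (fun i _ => (nn z hz i).2)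
      (Finset.mem_univ j)
  -- one component
  have key : ∀ j, |∑' k, ((starRingEnd ℂ) (off (w j) k) *
        (adv v v j k - adv u u j k)).re / (sq k * √(sq k))| ≤
      2 * √cZ * (√(hn w) * hp w) +
      2 * √cZ * (√(hn w) * (√(hp u) * √(hp w))) +
      2 * √cZ * (√(hn w) * (√(hp u) * √(hp w))) +
      √(mu w) * (√(hp u) * √(hn w)) := by
    intro j
    have hwj : w j = v j - u j := rfl
    have d1 : dot v (w j) = dot v (v j) - dot v (u j) := by
      rw [hwj]; exact hL.2.1 v (v j) (u j) hv (hv j) (hu j)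
    have d2 : dot w (u j) = dot v (u j) - dot u (u j) := hL.1 v u (u j) hv hu (hu j)
    have d3 : dot w (w j) = dot v (w j) - dot u (w j) := hL.1 v u (w j) hv hu (hwm j)
    have e : ∀ k, ((starRingEnd ℂ) (off (w j) k) * (adv v v j k - adv u u j k)).re /
        (sq k * √(sq k)) =
        hw3T w (w j) (w j) k + hw3T u (w j) (w j) k + hw3T w (w j) (u j) k := by
      intro k
      have e1 : adv v v j k - adv u u j k =
          dot w (w j) k + dot u (w j) k + dot w (u j) k := by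
        have a1 := congrFun d1 k
        have a2 := congrFun d2 k
        have a3 := congrFun d3 k
        simp only [Pi.sub_apply] at a1 a2 a3
        show dot v (v j) k - dot u (u j) k = _
        rw [a3, a2, a1]
        ring
      rw [e1]
      simp only [hw3T, mul_add, Complex.add_re, add_div]
    have s1 := hw3_summable hB hG w (w j) (w j) hwm (hwm j) (hwm j)
    have s2 := hw3_summable hB hG u (w j) (w j) hu (hwm j) (hwm j)
    have s3 := hw3_summable hB hG w (w j) (u j) hwm (hwm j) (hu j)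
    rw [tsum_congr e, (s1.add s2).tsum_add s3, s1.tsum_add s2]
    have b1 := hTB w (w j) hwm hRw (hwm j)
    have b2 := hTB u (w j) hu hRu (hwm j)
    have b3 := hTC w (w j) (u j) hwm (hwm j) (hu j)
    have i1 : √(hnS (w j)) ≤ √(hn w) := Real.sqrt_le_sqrt (chn w hwm j)
    have i2 : √(hpS (w j)) ≤ √(hp w) := Real.sqrt_le_sqrt (chp w hwm j)
    have i3 : √(hpS (u j)) ≤ √(hp u) := Real.sqrt_le_sqrt (chp u hu j)
    have b1' : |∑' k, hw3T w (w j) (w j) k| ≤ 2 * √cZ * (√(hn w) * hp w) := by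
      refine b1.trans ?_
      calc 2 * √cZ * √(hnS (w j)) * (√(hp w) * √(hpS (w j)))
          ≤ 2 * √cZ * √(hn w) * (√(hp w) * √(hp w)) := by gcongr
        _ = 2 * √cZ * (√(hn w) * hp w) := by rw [hPP]; ring
    have b2' : |∑' k, hw3T u (w j) (w j) k| ≤
        2 * √cZ * (√(hn w) * (√(hp u) * √(hp w))) := by
      refine b2.trans ?_
      calc 2 * √cZ * √(hnS (w j)) * (√(hp u) * √(hpS (w j)))
          ≤ 2 * √cZ * √(hn w) * (√(hp u) * √(hp w)) := by gcongr
        _ = 2 * √cZ * (√(hn w) * (√(hp u) * √(hp w))) := by ring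
    have b3' : |∑' k, hw3T w (w j) (u j) k| ≤
        2 * √cZ * (√(hn w) * (√(hp u) * √(hp w))) + √(mu w) * (√(hp u) * √(hn w)) := by
      refine b3.trans ?_
      have j1 : 2 * √cZ * √(hnS (w j)) * (√(hp w) * √(hpS (u j))) ≤
          2 * √cZ * (√(hn w) * (√(hp u) * √(hp w))) := by
        calc 2 * √cZ * √(hnS (w j)) * (√(hp w) * √(hpS (u j)))
            ≤ 2 * √cZ * √(hn w) * (√(hp w) * √(hp u)) := by gcongr
          _ = 2 * √cZ * (√(hn w) * (√(hp u) * √(hp w))) := by ring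
      have j2 : √(mu w) * (√(hpS (u j)) * √(hnS (w j))) ≤
          √(mu w) * (√(hp u) * √(hn w)) := by gcongr
      linarith
    refine (abs_add_three _ _ _).trans ?_
    linarith
  have k0 := key 0
  have k1 := key 1
  rw [Fin.sum_univ_two]
  refine (abs_add_le _ _).trans ?_
  have p1 : 0 ≤ √(hn w) * hp w := by positivity
  have p3 : 0 ≤ √(hn w) * (√(hp u) * √(hp w)) := by positivity
  have p4 : 0 ≤ √(mu w) * (√(hp u) * √(hn w)) := by positivity
  have q1 := mul_nonneg hc p1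
  have q4 := mul_nonneg hc p4
  nlinarith

end HB
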