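import Pool.Agent.H61.HB.Stmts

/-! # Board hbg (MP_91403e_an), row SUM -/

set_option autoImplicit false

namespace HB

theorem sum_int : Summable fun n : ℤ => (1 + (n : ℝ) ^ 2)⁻¹ := by
  have h1 : Summable fun n : ℤ => 1 / (n : ℝ) ^ 2 := by
    rw [Real.summable_one_div_int_pow]
    norm_num
  have h2 : Summable fun n : ℤ => if n = 0 then (1 : ℝ) else 0 :=
    (hasSum_ite_eq (0 : ℤ) (1 : ℝ)).summable
  refine Summable.of_nonneg_of_le (fun n => by positivity) (fun n => ?_) (h1.add h2)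
  by_cases hn : n = 0
  · subst hn
    norm_num
  · rw [if_neg hn, add_zero, one_div]
    have h3 : (0 : ℝ) < (n : ℝ) ^ 2 := by
      have : (n : ℝ) ≠ 0 := by exact_mod_cast hn
      positivity
    exact inv_anti₀ h3 (by linarith)

theorem sum_thm : SUMStmt := by
  have h := sum_int.mul_of_nonneg sum_int (fun n => by positivity) (fun n => by positivity)
  refine Summable.of_nonneg_of_le (fun k => by positivity) (fun k => ?_) h
  rw [← mul_inv]
  have h1 : (0 : ℝ) < (1 + (k.1 : ℝ) ^ 2) * (1 + (k.2 : ℝ) ^ 2) := by positivity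
  refine inv_anti₀ h1 ?_
  unfold sq
  nlinarith [sq_nonneg (k.1 : ℝ), sq_nonneg (k.2 : ℝ), mul_nonneg (sq_nonneg (k.1 : ℝ)) (sq_nonneg (k.2 : ℝ)), sq_nonneg ((k.1 : ℝ) ^ 2), sq_nonneg ((k.2 : ℝ) ^ 2)]

end HB
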